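import Pool.Agent.helper49.V.All

/-!
# Descent at all scales: all but `C₀ X / Z ^ c` integers `n ≤ X` go below `Z` with at most `K log n` circuits

The definitions are in `Pool/Agent/helper41/Coll/Defs.lean`: `f` is the `3x+1` map with `f 1 = 1`, and
`HasC n c` means that `n` reaches `1` and `C n = c`.

The proof.  Let `T` be the `3x+1` map.  (1) The pointwise bound (`Pool/Agent/helper4/PB`, theorem `pb`): for `z ≤ Y ≤ X + 1` at most
`C r ^ 2 (X + 1) / Y` integers `n ≤ X` come to `z` by a path whose earlier terms are all at least `Y` and whose last `i` steps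
contain between `49 i / 100` and `51 i / 100` odd terms, for all `i ≥ r`.  It comes from a bound for the mass of the backward
tree of `z` restricted to such words (`Pool/Agent/helper82/RL`, theorem `rl`), which is a consequence of the mixing of the backward
tree (`Pool/Agent/helper49/PDR`): there is no factor `log X`.  (2) The integers `z < Y`, `Y` about `2 ^ k`, whose next `k` terms are
atypical are at most `8 (k + 1) (2 q) ^ k`, `q < 1` (`card_BadV` in `Pool/Agent/helper14/V/Cnt.lean`).  (3) Let the first scale at
which `n` is atypical be `Y`.  Then all final pieces of the path from `n` to its first term below `Y` are typical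
(`suffix_dev` in `Pool/Agent/helper49/V/Step.lean`), so that (1) and (2) give at most `C' (k + 1) ^ 3 q ^ k (X + 1)` such `n`
(`stepV`), and the sum over the scales `Y ≥ Z` is a geometric series (`Iter.lean`, `Final.lean`).  The number of circuits is counted
along the way (`Circ.lean`, `All.lean`).
-/

namespace Pool.Agent.Results.MP_08f931_nt.DescentAllScales

open Pool.Agent.helper41.Coll

/-- Let `K > 1 / log (16/9)`.  There are `c, C₀ > 0` such that for all integers `X` and all real `Z > 0` the following holds for
all but at most `C₀ X Z ^ (- c)` of the integers `n` with `1 ≤ n ≤ X`: there is `j ≤ 4 K log n` such that `m = f^[j] n` is less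
than `Z` and, if `n` reaches `1`, then so does `m` and `C n ≤ K log n + C m`. -/
theorem result (K : ℝ) (hK : 1 / Real.log (16 / 9) < K) :
    ∃ c C₀ : ℝ, 0 < c ∧ 0 < C₀ ∧ ∀ (X : ℕ) (Z : ℝ), 0 < Z →
      (Nat.card {n : ℕ // 1 ≤ n ∧ n ≤ X ∧ ¬ ∃ j : ℕ, (j : ℝ) ≤ 4 * K * Real.log n ∧
        ((f^[j] n : ℕ) : ℝ) < Z ∧
        ∀ C : ℕ, HasC n C → ∃ C' : ℕ, HasC (f^[j] n) C' ∧ (C : ℝ) ≤ K * Real.log n + C'} : ℝ) ≤
        C₀ * X * Z ^ (-c) := by
  obtain ⟨c, C0, hc, hC0, H⟩ := Pool.Agent.helper49.V.theoremV hK
  exact ⟨c, C0, hc, hC0, fun X Z h => H X Z h⟩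

end Pool.Agent.Results.MP_08f931_nt.DescentAllScales
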