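import Pool.Agent.helper14.EX1.Low3
import Pool.Agent.helper14.EX1.Crt3

/-!
# Many circuits infinitely often: the constant 3

The definitions are in `Pool/Agent/helper41/Coll/Defs.lean`: `f` is the `3x+1` map with `f 1 = 1`, and
`HasC n c` means that `n` reaches `1` and `C n = c`.

The proof (`Pool/Agent/helper14/EX1`): a policy for the letters of the backward tree which looks at the node
modulo `3 ^ 9`; a random walk which follows it in long blocks has the Haar measure of the `3`-adic integers as
its only stationary law (unique ergodicity), so its mean gain does not depend on the starting point; a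
potential on the `2 * 3 ^ 9` states, checked by the kernel, bounds this mean gain from below.
-/

namespace Pool.Agent.Results.MP_08f931_nt.LowerBoundThree

open Pool.Agent.helper41.Coll

/-- Let `m` be a positive integer, not divisible by `3`, whose trajectory reaches `1`.  Then there are infinitely
many `n` whose trajectories contain `m` (so they reach `1`) with `C n ≥ 3 log n`. -/
theorem result (m : ℕ) (h3 : ¬ 3 ∣ m) (h1 : ∃ i, f^[i] m = 1) :
    {n : ℕ | (∃ i, f^[i] n = m) ∧ ∃ c : ℕ, HasC n c ∧ 3 * Real.log n ≤ (c : ℝ)}.Infinite := by
  obtain ⟨D, Kp, Sc, A, B, g, H, pol, h, hp, hSc, hg, hB0, hA, hB⟩ := Pool.Agent.helper14.EX1.crt3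
  exact Pool.Agent.helper14.EX1.low3 hp hSc hg (by norm_num) hA hB0 hB h3 h1

end Pool.Agent.Results.MP_08f931_nt.LowerBoundThree
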