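import Pool.Agent.helper7.ND.Pre

/-!
# The integers which reach 1 have a positive natural density, and almost all of them have the typical number of circuits

The definitions are in `Pool/Agent/helper41/Coll/Defs.lean`: `f` is the `3x+1` map with `f 1 = 1`, and
`HasC n c` means that `n` reaches `1` and `C n = c`.

The proof: every set of integers which is invariant under the `3x+1` map (outside a finite set) has a natural density
(`Pool/Agent/helper7/ND/Nd.lean`).  Let `A` be the set of the nodes (`b ≡ 2` modulo `3`, not divisible by `4`) in the set.  An element of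
`A` above `Z` is the end of exactly one first passage word above a root below `Z`, and this root lies in `A` (if it is large); the mass
`∑ 1/b` of the ends in a window `[X, q X)` is bounded from below root by root (`Pool/Agent/helper78/T5`: the restricted mass is
asymptotically preserved above every fixed root; Blackwell's theorem for the free walk).  These lower bounds for `A` and for its
complement add up to nearly the full mass, so both are nearly sharp: the masses of `A` in the windows `[X, q X)` and `[X', q X')`
are nearly the same for all large `X, X'`, hence the density exists.  It is positive by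
`Pool/Agent/helper82/PD`, and almost all `n` which reach `1` are typical (`Pool/Agent/helper62/T2`).
-/

namespace Pool.Agent.Results.MP_08f931_nt.NaturalDensity

open Pool.Agent.helper41.Coll Filter Topology

/-- Let `m` be a positive integer, not divisible by `3`, whose trajectory reaches `1` (for example `m = 1`).  There is `θ > 0` such that
the set of the integers `n ≥ 2` which have `m` in their trajectory has the natural density `θ` and, for every `ε > 0`, the set of
those of them which satisfy `|C n - log n / log (16/9)| ≤ ε log n` and reach `1` for the first time after `j` steps,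
`|j - 2 log n / log (4/3)| ≤ ε log n`, has the natural density `θ` too. -/
theorem result (m : ℕ) (h3 : ¬ 3 ∣ m) (h1 : ∃ i, f^[i] m = 1) : ∃ θ : ℝ, 0 < θ ∧
    Tendsto (fun x : ℕ =>
      (Nat.card {n : ℕ // 2 ≤ n ∧ n ≤ x ∧ ∃ i, f^[i] n = m} : ℝ) / x) atTop (𝓝 θ) ∧
    ∀ ε : ℝ, 0 < ε → Tendsto (fun x : ℕ =>
      (Nat.card {n : ℕ // 2 ≤ n ∧ n ≤ x ∧ (∃ i, f^[i] n = m) ∧
        (∃ c : ℕ, HasC n c ∧ |(c : ℝ) - Real.log n / Real.log (16 / 9)| ≤ ε * Real.log n) ∧
        ∃ j : ℕ, f^[j] n = 1 ∧ (∀ i < j, f^[i] n ≠ 1) ∧
          |(j : ℝ) - 2 * Real.log n / Real.log (4 / 3)| ≤ ε * Real.log n} : ℝ) / x) atTop (𝓝 θ) := by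
  have hm : 1 ≤ m := by
    rcases Nat.eq_zero_or_pos m with h | h
    · exact absurd (h ▸ dvd_zero 3) h3
    · exact h
  obtain ⟨θ, hθ, hall, htyp⟩ := Pool.Agent.helper7.ND.pre_pos hm h3
  exact ⟨θ, hθ, hall, htyp h1⟩

end Pool.Agent.Results.MP_08f931_nt.NaturalDensity
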