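import Pool.Agent.helper49.Pow.Circ

/-!
# The bound `C(n) ≤ K log n` for all `n` is equivalent to a power saving for the number of exceptions

The definitions are in `Pool/Agent/helper41/Coll/Defs.lean`: `f` is the `3x+1` map with `f 1 = 1`, and
`HasC n c` means that `n` reaches `1` and `C n = c`.

The proof, from few exceptions to no exceptions: there are absolute constants `c, B > 0` such that for every `m` not
divisible by `3` which reaches `1` and every `x ≥ B m` at least `c x / m` integers `n ≤ x` pass through `m`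
(`Pool/Agent/helper49/Dich/Uni.lean`, from `Pool/Agent/helper49/PDR`), and `C n ≥ C m` for these `n`.  So one `m` with
`C m > K' log m` gives at least `c x / m` exceptions for the constant `K`, for all `x` between `B m` and about
`m ^ (K' / K)`.

In the other direction (`Pool/Agent/helper49/Pow`): for every `K' > 1 / log (16/9)` and every `η > 0` all but a power
saving number of the `n ≤ x` have an iterate `m < x ^ η` such that `C n ≤ K' log n + C m`; if `C m` is at most a
constant times `log m` for all `m`, then `C n ≤ K log n` for these `n`, if `η` is small.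
-/

namespace Pool.Agent.Results.MP_08f931_nt.PowerSaving

open Pool.Agent.helper41.Coll

/-- The number of the integers `n` with `2 ≤ n ≤ x` which reach `1` and satisfy `C n > K log n`. -/
noncomputable def E (K x : ℝ) : ℕ :=
  Nat.card {n : ℕ // 2 ≤ n ∧ (n : ℝ) ≤ x ∧ ∃ c : ℕ, HasC n c ∧ K * Real.log n < c}

/-- The question of the problem file: there is `K` with `C n ≤ K log n` for all `n ≥ 2` which reach `1`. -/
def Q1 : Prop := ∃ K : ℝ, ∀ n : ℕ, 2 ≤ n → ∀ c : ℕ, HasC n c → (c : ℝ) ≤ K * Real.log n

theorem E_eq (K x : ℝ) : E K x = Pool.Agent.helper49.Dich.Exc K x := by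
  classical
  unfold E Pool.Agent.helper49.Dich.Exc
  rw [← Nat.card_eq_finsetCard]
  refine Nat.card_congr (Equiv.subtypeEquivRight fun n => ?_)
  rw [Finset.mem_filter, Finset.mem_Icc]
  constructor
  · rintro ⟨h1, h2, h3⟩
    exact ⟨⟨h1, Nat.le_floor h2⟩, h3⟩
  · rintro ⟨⟨h1, h2⟩, h3⟩
    refine ⟨h1, ?_, h3⟩
    have hx : 0 ≤ x := by
      by_contra hx
      rw [Nat.floor_of_nonpos (not_le.1 hx).le] at h2
      omega
    exact (Nat.cast_le.2 h2).trans (Nat.floor_le hx)

/-- There is an absolute constant `c > 0` such that for every `K > 1 / log (16/9)` the following are equivalent: the bound of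
the question (with some constant, for all `n` which reach `1`); for some `δ > 0` at most `x ^ (1 - δ)` integers `n ≤ x` violate
`C n ≤ K log n`, for all large `x`; for some `K'` and `Λ` and all large `y` at most `c x / y` integers `n ≤ x` violate
`C n ≤ K' log n`, for at least one `x` in the interval `[y, y ^ Λ]`. -/
theorem result : ∃ c : ℝ, 0 < c ∧ ∀ K : ℝ, 1 / Real.log (16 / 9) < K →
    List.TFAE [Q1,
      ∃ δ x₀ : ℝ, 0 < δ ∧ ∀ x, x₀ ≤ x → (E K x : ℝ) ≤ x ^ (1 - δ),
      ∃ K' Λ y₀ : ℝ, ∀ y, y₀ ≤ y → ∃ x, y ≤ x ∧ x ≤ y ^ Λ ∧ (E K' x : ℝ) ≤ c * x / y] := by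
  obtain ⟨c, hc, H⟩ := Pool.Agent.helper49.Dich.q1_iff_scale
  refine ⟨c, hc, fun K hK => ?_⟩
  simp only [E_eq]
  tfae_have 1 → 2 := fun h => Pool.Agent.helper49.Pow.saving_of_q1 h hK
  tfae_have 2 → 1 := by
    rintro ⟨δ, x₀, hδ, h⟩
    exact Pool.Agent.helper49.Dich.q1_iff.2 ⟨K, δ, x₀, hδ, h⟩
  tfae_have 1 ↔ 3 := H
  tfae_finish

end Pool.Agent.Results.MP_08f931_nt.PowerSaving
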